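import Pool.Agent.H559.GU.FinU

set_option autoImplicit false

/-! # The largest gap -/

open Finset MeasureTheory ProbabilityTheory Filter Topology Polynomial
open Pool.Agent.T2H32.BF (Model prob cond V V_pos V_anti V_ratio)
open Pool.Agent.H559.HY (CF RS)
open Pool.Agent.H559.BS (Limit TT TT_le TT_top log_pow_le log_top bc)
open Pool.Agent.H559.GP (Place)

namespace Pool.Agent.H559.GU

/-- the gaps between consecutive elements -/
def gs (S : Set ℕ) (X : ℕ) : Set ℕ := {g | ∃ m ≤ X, m ∈ S ∧ m + g ∈ S ∧ 0 < g ∧ ∀ u, m < u → u < m + g → u ∉ S}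

/-- the largest gap `m' - m` between consecutive elements `m < m'` with `m ≤ X` -/
noncomputable def mx (S : Set ℕ) (X : ℕ) : ℕ := sSup (gs S X)

theorem bdd (S : Set ℕ) (hinf : ∀ N : ℕ, ∃ m : ℕ, N < m ∧ m ∈ S) (X : ℕ) : BddAbove (gs S X) := by
  obtain ⟨M, hM, hMS⟩ := hinf X
  refine ⟨M, ?_⟩
  rintro g ⟨m, hm, _, _, hg, h⟩
  by_contra hcon
  exact h M (by omega) (by omega) hMS

theorem mx_low (S : Set ℕ) (hinf : ∀ N : ℕ, ∃ m : ℕ, N < m ∧ m ∈ S) (X m m' : ℕ) (h1 : m < m') (h2 : m ≤ X) (h3 : m ∈ S)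
    (h4 : m' ∈ S) (h5 : ∀ u, m < u → u < m' → u ∉ S) : m' - m ≤ mx S X := by
  refine le_csSup (bdd S hinf X) ⟨m, h2, h3, ?_, by omega, fun u hu hu' => h5 u hu (by omega)⟩
  rwa [show m + (m' - m) = m' by omega]

theorem mx_up (S : Set ℕ) (hinf : ∀ N : ℕ, ∃ m : ℕ, N < m ∧ m ∈ S) (t : ℝ) (ht : 0 < t)
    (hw : ∀ᶠ n : ℕ in atTop, ∃ m : ℕ, n < m ∧ (m : ℝ) ≤ n + Real.log n ^ t ∧ m ∈ S) :
    ∀ᶠ X : ℕ in atTop, (mx S X : ℝ) ≤ Real.log X ^ t := by
  obtain ⟨n0, hn0⟩ := eventually_atTop.1 hw
  obtain ⟨M, hM, hMS⟩ := hinf n0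
  have htop : Tendsto (fun X : ℕ => Real.log X ^ t) atTop atTop := (tendsto_rpow_atTop ht).comp log_top
  filter_upwards [htop.eventually_ge_atTop (M : ℝ), eventually_ge_atTop 1] with X hX hX1
  have h0 : 0 ≤ Real.log X ^ t := Real.rpow_nonneg (Real.log_natCast_nonneg X) _
  have hall : ∀ g ∈ gs S X, g ≤ ⌊Real.log X ^ t⌋₊ := by
    rintro g ⟨m, hm, _, _, hg, h⟩
    refine Nat.le_floor ?_
    rcases lt_or_ge m n0 with h1 | h1
    · have h2 : g ≤ M := by
        by_contra hcon
        exact h M (by omega) (by omega) hMS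
      have h3 : (g : ℝ) ≤ M := by exact_mod_cast h2
      linarith
    · obtain ⟨m', h2, h3, h4⟩ := hn0 m h1
      have h5 : m + g ≤ m' := by
        by_contra hcon
        exact h m' h2 (by omega) h4
      have h6 : ((m : ℝ)) + g ≤ m' := by exact_mod_cast h5
      have h7 : Real.log m ^ t ≤ Real.log X ^ t := by
        refine Real.rpow_le_rpow (Real.log_natCast_nonneg m) ?_ ht.le
        rcases Nat.eq_zero_or_pos m with h8 | h8
        · rw [h8, Nat.cast_zero, Real.log_zero]
          exact Real.log_natCast_nonneg X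
        · exact Real.log_le_log (by exact_mod_cast h8) (by exact_mod_cast hm)
      linarith
  have h1 : mx S X ≤ ⌊Real.log X ^ t⌋₊ := by
    unfold mx
    rcases Set.eq_empty_or_nonempty (gs S X) with h2 | h2
    · rw [h2]
      simp
    · exact csSup_le h2 hall
  exact (by exact_mod_cast h1 : (mx S X : ℝ) ≤ (⌊Real.log X ^ t⌋₊ : ℝ)).trans (Nat.floor_le h0)

theorem mx_lim (G : ℕ → ℕ) (c : ℝ) (hc : 0 < c) (hup : ∀ t : ℝ, 2 < t → ∀ᶠ X : ℕ in atTop, (G X : ℝ) ≤ Real.log X ^ t)
    (hlow : ∀ᶠ X : ℕ in atTop, c * Real.log X ^ 2 ≤ G X) :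
    Tendsto (fun X : ℕ => Real.log (G X) / Real.log (Real.log X)) atTop (𝓝 2) := by
  rw [Metric.tendsto_atTop']
  intro e he
  have h1 : Tendsto (fun X : ℕ => Real.log c / Real.log (Real.log X)) atTop (𝓝 0) := tendsto_const_nhds.div_atTop ll_top
  have hall := (((((hup (2 + e / 2) (by linarith)).and hlow).and (ll_top.eventually_ge_atTop 1)).and
    (log_top.eventually_ge_atTop 1)).and (h1.eventually_const_lt (show -e < 0 by linarith)))
  obtain ⟨N, hN⟩ := eventually_atTop.1 hall
  refine ⟨N, fun X hX => ?_⟩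
  obtain ⟨⟨⟨⟨a1, a2⟩, a3⟩, a4⟩, a5⟩ := hN X hX.le
  have hL : 0 < Real.log X := by linarith
  have hG : (0 : ℝ) < G X := lt_of_lt_of_le (by positivity) a2
  have hll : 0 < Real.log (Real.log X) := by linarith
  have b1 : Real.log (G X) ≤ (2 + e / 2) * Real.log (Real.log X) := by
    rw [← Real.log_rpow hL]
    exact Real.log_le_log hG a1
  have b2 : Real.log c + 2 * Real.log (Real.log X) ≤ Real.log (G X) := by
    have h2 := Real.log_le_log (by positivity) a2
    rw [Real.log_mul hc.ne' (by positivity), Real.log_pow] at h2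
    push_cast at h2
    exact h2
  rw [Real.dist_eq, abs_lt]
  constructor
  · have : Real.log c / Real.log (Real.log X) + 2 ≤ Real.log (G X) / Real.log (Real.log X) := by
      rw [le_div_iff₀ hll, add_mul, div_mul_cancel₀ _ hll.ne']
      exact b2
    linarith
  · have : Real.log (G X) / Real.log (Real.log X) ≤ 2 + e / 2 := by
      rw [div_le_iff₀ hll]
      exact b1
    linarith

/-- an example of a cut -/
noncomputable def WL (v : ℕ) : ℕ := ⌊Real.log v * Real.log (Real.log v + 1) ^ 2⌋₊

theorem cut_WL : CutL WL where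
  mono := by
    intro m n hmn
    unfold WL
    refine Nat.floor_le_floor ?_
    have h1 : 0 ≤ Real.log m := Real.log_natCast_nonneg m
    have h2 : Real.log m ≤ Real.log n := by
      rcases Nat.eq_zero_or_pos m with h | h
      · rw [h, Nat.cast_zero, Real.log_zero]
        exact Real.log_natCast_nonneg n
      · exact Real.log_le_log (by exact_mod_cast h) (by exact_mod_cast hmn)
    have h3 : 0 ≤ Real.log (Real.log m + 1) := Real.log_nonneg (by linarith)
    have h4 : Real.log (Real.log m + 1) ≤ Real.log (Real.log n + 1) := Real.log_le_log (by linarith) (by linarith)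
    gcongr
  low := by
    have h1 : Tendsto (fun v : ℕ => Real.log (Real.log v) + (-1)) atTop atTop := ll_top.atTop_add tendsto_const_nhds
    refine tendsto_atTop_mono' atTop ?_ h1
    filter_upwards [ll_top.eventually_ge_atTop 1, log_top.eventually_ge_atTop 1] with v h2 h3
    rw [le_div_iff₀ (by positivity)]
    have h4 := Nat.lt_floor_add_one (Real.log v * Real.log (Real.log v + 1) ^ 2)
    have h5 : Real.log (Real.log v) ≤ Real.log (Real.log v + 1) := Real.log_le_log (by linarith) (by linarith)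
    have h6 : Real.log v * Real.log (Real.log v) ^ 2 ≤ Real.log v * Real.log (Real.log v + 1) ^ 2 := by gcongr
    unfold WL
    nlinarith
  up := by
    intro e he
    have h1 : (fun x : ℝ => Real.log x) =o[atTop] fun x => x ^ (e / 2) := isLittleO_log_rpow_atTop (by positivity)
    have h2 := h1.bound (show (0 : ℝ) < 1 / 4 by norm_num)
    filter_upwards [log_top.eventually h2, ll_top.eventually_ge_atTop 1, log_top.eventually_ge_atTop 1] with v a1 a2 a3
    have a1' : ‖Real.log (Real.log v)‖ ≤ 1 / 4 * ‖Real.log v ^ (e / 2)‖ := a1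
    have hL : 0 < Real.log v := by linarith
    rw [Real.norm_eq_abs, abs_of_nonneg (by linarith), Real.norm_eq_abs, abs_of_nonneg (by positivity)] at a1'
    have h3 : Real.log (Real.log v + 1) ≤ 2 * Real.log (Real.log v) := by
      have h4 : Real.log (Real.log v + 1) ≤ Real.log (2 * Real.log v) := Real.log_le_log (by linarith) (by linarith)
      rw [Real.log_mul (by norm_num) (by linarith)] at h4
      have h5 : Real.log 2 ≤ 1 := by
        have := Real.log_two_lt_d9
        linarith
      linarith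
    have h4 : 0 ≤ Real.log (Real.log v + 1) := Real.log_nonneg (by linarith)
    unfold WL
    refine (Nat.floor_le (by positivity)).trans ?_
    calc Real.log v * Real.log (Real.log v + 1) ^ 2 ≤ Real.log v * (Real.log v ^ (e / 2)) ^ 2 := by
          gcongr
          linarith [Real.rpow_nonneg hL.le (e / 2)]
      _ = Real.log v ^ (1 + e) := by
          rw [← Real.rpow_natCast, ← Real.rpow_mul hL.le, Real.rpow_add hL, Real.rpow_one]
          congr 2
          push_cast
          ring

end Pool.Agent.H559.GU
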