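import Pool.Agent.H559.HY.CutW

set_option autoImplicit false

/-! # The cuts between `log v * log (log v)` and `(log v) ^ (1 + e)` -/

open Finset Filter Topology
open Pool.Agent.T2H32.BF (V V_pos V_anti V_ratio recip_le mertens)
open Pool.Agent.H559.BS (TT TT_le TT_ge TT_top log_TT V_TT log_pow_le log_top g g_pos)
open Pool.Agent.H559.HY (Cut WW log_TT_lim log_pow_lim)

namespace Pool.Agent.H559.GU

/-- the cuts between `log v * log (log v)` and all the `(log v) ^ (1 + e)` -/
structure CutL (W : ℕ → ℕ) : Prop where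
  mono : Monotone W
  low : Tendsto (fun v : ℕ => (W v : ℝ) / (Real.log v * Real.log (Real.log v))) atTop atTop
  up : ∀ e : ℝ, 0 < e → ∀ᶠ v : ℕ in atTop, (W v : ℝ) ≤ Real.log v ^ (1 + e)

theorem ll_top : Tendsto (fun x : ℕ => Real.log (Real.log x)) atTop atTop := Real.tendsto_log_atTop.comp log_top

variable {W : ℕ → ℕ}

theorem low1 (hW : CutL W) (K : ℝ) : ∀ᶠ v : ℕ in atTop, K * (Real.log v * Real.log (Real.log v)) ≤ W v := by
  filter_upwards [hW.low.eventually_ge_atTop K, log_top.eventually_ge_atTop 1, ll_top.eventually_ge_atTop 1] with v h1 h2 h3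
  have : 0 < Real.log v * Real.log (Real.log v) := by positivity
  rwa [le_div_iff₀ this] at h1

theorem top1 (hW : CutL W) : Tendsto (fun v : ℕ => (W v : ℝ) / Real.log v) atTop atTop := by
  refine tendsto_atTop_mono' atTop ?_ ll_top
  filter_upwards [low1 hW 1, log_top.eventually_ge_atTop 1] with v h1 h2
  rw [le_div_iff₀ (by linarith)]
  linarith

/-- the logarithm of the cut -/
theorem log_lim (hW : CutL W) : Tendsto (fun v : ℕ => Real.log (W v) / Real.log (Real.log v)) atTop (𝓝 1) := by
  rw [Metric.tendsto_atTop']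
  intro e he
  have h1 := (((hW.up (e / 2) (by positivity)).and (low1 hW 1)).and (log_top.eventually_ge_atTop 1)).and
    (ll_top.eventually_ge_atTop 1)
  obtain ⟨N, hN⟩ := eventually_atTop.1 h1
  refine ⟨N, fun v hv => ?_⟩
  obtain ⟨⟨⟨a1, a2⟩, a3⟩, a4⟩ := hN v hv.le
  have hlW : Real.log v ≤ W v := by nlinarith
  have hW1 : (0 : ℝ) < W v := by linarith
  have b1 : Real.log (W v) ≤ (1 + e / 2) * Real.log (Real.log v) := by
    rw [← Real.log_rpow (by linarith)]
    exact Real.log_le_log hW1 a1
  have b2 : Real.log (Real.log v) ≤ Real.log (W v) := Real.log_le_log (by linarith) hlW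
  rw [Real.dist_eq, abs_lt]
  constructor
  · have : 1 ≤ Real.log (W v) / Real.log (Real.log v) := by
      rw [le_div_iff₀ (by linarith)]
      linarith
    linarith
  · have : Real.log (W v) / Real.log (Real.log v) ≤ 1 + e / 2 := by
      rw [div_le_iff₀ (by linarith)]
      linarith
    linarith

theorem u_top (u : ℕ → ℕ) (κ : ℝ) (hκ : 0 < κ) (hu : Tendsto (fun x : ℕ => Real.log (u x) / Real.log x) atTop (𝓝 κ)) :
    Tendsto u atTop atTop := by
  have hL : Tendsto (fun x : ℕ => Real.log (u x)) atTop atTop := by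
    have h1 := hu.pos_mul_atTop hκ log_top
    refine h1.congr' ?_
    filter_upwards [log_top.eventually_ge_atTop 1] with x hx
    field_simp
  rw [tendsto_atTop]
  intro b
  filter_upwards [hL.eventually_ge_atTop (b + 1)] with x hx
  have h2 : Real.log (u x) ≤ u x := Real.log_le_self (Nat.cast_nonneg _)
  have h3 : (b : ℝ) ≤ u x := by linarith
  exact_mod_cast h3

theorem ll_lim (u : ℕ → ℕ) (κ : ℝ) (hκ : 0 < κ) (hu : Tendsto (fun x : ℕ => Real.log (u x) / Real.log x) atTop (𝓝 κ)) :
    Tendsto (fun x : ℕ => Real.log (Real.log (u x)) / Real.log (Real.log x)) atTop (𝓝 1) := by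
  have h2 : Tendsto (fun x : ℕ => Real.log (Real.log (u x) / Real.log x)) atTop (𝓝 (Real.log κ)) :=
    (Real.continuousAt_log hκ.ne').tendsto.comp hu
  have h3 := h2.div_atTop ll_top
  have h4 : Tendsto (fun x : ℕ => 1 + Real.log (Real.log (u x) / Real.log x) / Real.log (Real.log x)) atTop
      (𝓝 (1 + 0)) := tendsto_const_nhds.add h3
  rw [add_zero] at h4
  refine h4.congr' ?_
  have hL := log_top.comp (u_top u κ hκ hu)
  filter_upwards [log_top.eventually_ge_atTop 1, hL.eventually_ge_atTop 1, ll_top.eventually_ge_atTop 1] with x a1 a2 a3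
  simp only [Function.comp_apply] at a2
  rw [Real.log_div (by linarith) (by linarith)]
  field_simp
  ring

theorem V_lim (hW : CutL W) (u : ℕ → ℕ) (κ : ℝ) (hκ : 0 < κ)
    (hu : Tendsto (fun x : ℕ => Real.log (u x) / Real.log x) atTop (𝓝 κ)) :
    Tendsto (fun x : ℕ => V (W (u x)) * Real.log (Real.log x)) atTop (𝓝 g) := by
  have hut := u_top u κ hκ hu
  have hWt : Tendsto W atTop atTop := by
    rw [tendsto_atTop]
    intro b
    filter_upwards [(top1 hW).eventually_ge_atTop b, log_top.eventually_ge_atTop 1] with v h1 h2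
    rw [le_div_iff₀ (by linarith)] at h1
    have : (b : ℝ) ≤ W v := by
      have hb : (0 : ℝ) ≤ b := Nat.cast_nonneg b
      nlinarith
    exact_mod_cast this
  have h1 := (mertens.comp (hWt.comp hut))
  have h2 := ((log_lim hW).comp hut).mul (ll_lim u κ hκ hu)
  rw [mul_one] at h2
  have h3 := h1.div h2 one_ne_zero
  rw [div_one] at h3
  refine h3.congr' ?_
  filter_upwards [(hWt.comp hut).eventually_ge_atTop 2, ll_top.eventually_ge_atTop 1,
    (ll_top.comp hut).eventually_ge_atTop 1] with x a1 a2 a3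
  simp only [Pi.div_apply, Function.comp_apply] at a1 a3 ⊢
  have h5 : 0 < Real.log (W (u x)) := Real.log_pos (by exact_mod_cast a1)
  field_simp

theorem cut (hW : CutL W) : Cut W where
  mono := hW.mono
  top := top1 hW
  slow := by
    intro A η hA hη hη1
    have hA0 : (0 : ℝ) < A := by exact_mod_cast hA
    have h1 := V_lim hW (TT η) η hη (log_TT_lim η hη)
    have h2 := V_lim hW (fun x => x ^ A) A hA0 (log_pow_lim A)
    have hg := g_pos
    have h3 := h1.div h2 (by positivity)
    rw [div_self (by positivity)] at h3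
    refine h3.congr' ?_
    filter_upwards [ll_top.eventually_ge_atTop 1] with x hx
    simp only [Pi.div_apply]
    have := V_pos (W (x ^ A))
    field_simp
  small := by
    intro A δ hA hδ
    have hpow : Tendsto (fun x : ℕ => x ^ A) atTop atTop := tendsto_pow_atTop (by omega)
    filter_upwards [log_pow_le 2 δ (A ^ 2) hδ, log_top.eventually_ge_atTop 1, hpow.eventually (hW.up 1 one_pos)]
      with x h1 h2 h3
    unfold TT
    refine Nat.le_floor ?_
    refine h3.trans ?_
    rw [Nat.cast_pow, Real.log_pow]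
    calc (A * Real.log x) ^ ((1 : ℝ) + 1) = A ^ 2 * Real.log x ^ 2 := by
          rw [show (1 : ℝ) + 1 = ((2 : ℕ) : ℝ) by norm_num, Real.rpow_natCast, mul_pow]
      _ ≤ _ := h1

end Pool.Agent.H559.GU
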