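import Pool.Agent.H559.HY.Local

set_option autoImplicit false

/-! # The Laplace transform of the number of survivors of a random sieve, with a sharper constant -/

open Finset MeasureTheory ProbabilityTheory
open Pool.Agent.T2H32.BF (Model prob cond)
open Pool.Agent.H559.HY (surv mg mg_insert mg_empty card_classes tail_low surv_congr)

namespace Pool.Agent.H559.GU

variable {Ω : Type*} [MeasurableSpace Ω] {P : Measure Ω} {a : ℕ → Ω → ℕ}

theorem exp_le2 (x : ℝ) (h0 : 0 ≤ x) (h1 : x ≤ 1) : Real.exp x ≤ 1 + x + x ^ 2 := by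
  have h := Real.exp_bound' h0 h1 (n := 2) (by norm_num)
  norm_num [Finset.sum_range_succ] at h
  nlinarith [sq_nonneg x]

theorem exp_le (η x : ℝ) (hη : η ≤ 1) (h0 : 0 ≤ x) (h1 : x ≤ η) : Real.exp x ≤ 1 + (1 + η) * x := by
  have h := exp_le2 x h0 (h1.trans hη)
  nlinarith

theorem lap (h : Model P a) (kl : ℕ → ℕ → Finset ℕ) (K : ℕ) (lam κ c η : ℝ) (hlam : 0 ≤ lam) (hη : η ≤ 1) (hη0 : 0 ≤ η) (hc : lam * c ≤ η)
    (hκ0 : 0 ≤ κ) (L : Finset ℕ) (hL : ∀ p ∈ L, p.Prime) (hkl : ∀ p ∈ L, ∀ u, kl p u ⊆ range p)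
    (hκ : ∀ p ∈ L, ∀ u, ((kl p u).card : ℝ) ≤ κ) (hκp : ∀ p ∈ L, (1 + η) * κ ≤ p) :
    ∀ A : Finset ℕ, A.card ≤ K → (∀ p ∈ L, ∀ r, ((A.filter (fun u => r ∈ kl p u)).card : ℝ) ≤ c) →
      mg P kl a K (-lam) L A ≤ Real.exp (-(lam * (A.card * ∏ p ∈ L, (1 - (1 + η) * κ / (p : ℝ))))) := by
  classical
  induction L using Finset.induction_on with
  | empty =>
    intro A hA _
    rw [mg_empty h kl K (-lam) A hA, prod_empty]
    apply Real.exp_le_exp.2
    linarith
  | @insert p L hpL ih =>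
    intro A hA hcA
    have hp := hL p (mem_insert_self _ _)
    have hp0 : (0 : ℝ) < p := by exact_mod_cast hp.pos
    have ih' := ih (fun q hq => hL q (mem_insert_of_mem hq)) (fun q hq => hkl q (mem_insert_of_mem hq))
      (fun q hq => hκ q (mem_insert_of_mem hq)) (fun q hq => hκp q (mem_insert_of_mem hq))
    set W := ∏ q ∈ L, (1 - (1 + η) * κ / (q : ℝ)) with hW
    have hfac : ∀ q ∈ insert p L, 0 ≤ 1 - (1 + η) * κ / (q : ℝ) ∧ 1 - (1 + η) * κ / (q : ℝ) ≤ 1 := by
      intro q hq
      have h1 : (0 : ℝ) < q := by exact_mod_cast (hL q hq).pos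
      have h2 : (1 + η) * κ / (q : ℝ) ≤ 1 := by rw [div_le_one h1]; exact hκp q hq
      have h3 : 0 ≤ (1 + η) * κ / (q : ℝ) := by positivity
      constructor <;> linarith
    have hW0 : 0 ≤ W := prod_nonneg fun q hq => (hfac q (mem_insert_of_mem hq)).1
    have hW1 : W ≤ 1 := prod_le_one (fun q hq => (hfac q (mem_insert_of_mem hq)).1)
      fun q hq => (hfac q (mem_insert_of_mem hq)).2
    rw [mg_insert h kl K (-lam) A L p hp hpL, prod_insert hpL, ← hW]
    set n : ℕ → ℝ := fun r => ((A.filter (fun u => r ∈ kl p u)).card : ℝ) with hn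
    have hn0 : ∀ r, 0 ≤ n r := fun r => Nat.cast_nonneg _
    have hnc : ∀ r, n r ≤ c := fun r => hcA p (mem_insert_self _ _) r
    have hsplit : ∀ r, ((A.filter (fun u => r ∉ kl p u)).card : ℝ) = A.card - n r := by
      intro r
      have := card_filter_add_card_filter_not (s := A) (p := fun u => r ∈ kl p u)
      simp only [hn]
      have h2 : ((A.filter (fun u => r ∈ kl p u)).card : ℝ) + ((A.filter (fun u => r ∉ kl p u)).card : ℝ) = A.card := by
        exact_mod_cast this
      linarith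
    have hterm : ∀ r ∈ range p, mg P kl a K (-lam) L (A.filter (fun u => r ∉ kl p u)) ≤
        Real.exp (-(lam * (A.card * W))) * (1 + (1 + η) * (lam * (n r * W))) := by
      intro r _
      refine (ih' _ ((card_filter_le _ _).trans hA) ?_).trans ?_
      · intro q hq s
        refine le_trans ?_ (hcA q (mem_insert_of_mem hq) s)
        exact_mod_cast card_le_card (filter_subset_filter _ (filter_subset _ _))
      · rw [hsplit r]
        have e : -(lam * ((A.card - n r) * W)) = -(lam * (A.card * W)) + lam * (n r * W) := by ring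
        rw [e, Real.exp_add]
        refine mul_le_mul_of_nonneg_left ?_ (Real.exp_pos _).le
        refine exp_le η _ hη (by have := hn0 r; positivity) ?_
        calc lam * (n r * W) ≤ lam * (c * 1) := by
              have h1 := hnc r
              have h2 := hn0 r
              have h3 : 0 ≤ c := h2.trans h1
              gcongr
          _ ≤ η := by rw [mul_one]; exact hc
    have hsum : ∑ r ∈ range p, n r ≤ κ * A.card := by
      rw [card_classes kl A p (hkl p (mem_insert_self _ _))]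
      calc ∑ u ∈ A, ((kl p u).card : ℝ) ≤ ∑ _u ∈ A, κ := sum_le_sum fun u _ => hκ p (mem_insert_self _ _) u
        _ = κ * A.card := by rw [sum_const, nsmul_eq_mul, mul_comm]
    calc (1 / (p : ℝ)) * ∑ r ∈ range p, mg P kl a K (-lam) L (A.filter (fun u => r ∉ kl p u))
        ≤ (1 / (p : ℝ)) * ∑ r ∈ range p, Real.exp (-(lam * (A.card * W))) * (1 + (1 + η) * (lam * (n r * W))) := by
          gcongr with r hr
          exact hterm r hr
      _ = Real.exp (-(lam * (A.card * W))) * (1 + (1 + η) * (lam * W * (∑ r ∈ range p, n r)) / p) := by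
          rw [← mul_sum, sum_add_distrib, sum_const, card_range, nsmul_eq_mul, mul_one]
          have e1 : ∑ r ∈ range p, (1 + η) * (lam * (n r * W)) = (1 + η) * (lam * W * ∑ r ∈ range p, n r) := by
            rw [mul_sum, mul_sum]
            exact sum_congr rfl fun r _ => by ring
          rw [e1]
          field_simp
      _ ≤ Real.exp (-(lam * (A.card * W))) * (1 + (1 + η) * (lam * W * (κ * A.card)) / p) := by gcongr
      _ ≤ Real.exp (-(lam * (A.card * W))) * Real.exp ((1 + η) * (lam * W * (κ * A.card)) / p) := by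
          refine mul_le_mul_of_nonneg_left ?_ (Real.exp_pos _).le
          have := Real.add_one_le_exp ((1 + η) * (lam * W * (κ * A.card)) / p)
          linarith
      _ = Real.exp (-(lam * (A.card * ((1 - (1 + η) * κ / p) * W)))) := by
          rw [← Real.exp_add]
          congr 1
          field_simp
          ring

/-- the lower tail, for a fixed set -/
theorem tail (h : Model P a) (kl : ℕ → ℕ → Finset ℕ) (lam κ c η : ℝ) (hlam : 0 ≤ lam) (hη : η ≤ 1) (hη0 : 0 ≤ η) (hc : lam * c ≤ η)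
    (hκ0 : 0 ≤ κ) (L : Finset ℕ) (hL : ∀ p ∈ L, p.Prime) (hkl : ∀ p ∈ L, ∀ u, kl p u ⊆ range p)
    (hκ : ∀ p ∈ L, ∀ u, ((kl p u).card : ℝ) ≤ κ) (hκp : ∀ p ∈ L, (1 + η) * κ ≤ p) (A : Finset ℕ)
    (hA : ∀ p ∈ L, ∀ r, ((A.filter (fun u => r ∈ kl p u)).card : ℝ) ≤ c) :
    P.real {ω | ((surv kl (fun i => a i ω) L A).card : ℝ) ≤ A.card * (∏ p ∈ L, (1 - (1 + η) * κ / (p : ℝ))) / 2} ≤
      Real.exp (-(lam * (A.card * (∏ p ∈ L, (1 - (1 + η) * κ / (p : ℝ))) / 2))) := by
  refine (tail_low h kl A.card lam hlam L A le_rfl _).trans ?_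
  refine (mul_le_mul_of_nonneg_left (lap h kl A.card lam κ c η hlam hη hη0 hc hκ0 L hL hkl hκ hκp A le_rfl hA)
    (Real.exp_pos _).le).trans ?_
  rw [← Real.exp_add]
  apply Real.exp_le_exp.2
  linarith

/-- the lower tail, for a set which depends on the classes of the small primes -/
theorem tailc (h : Model P a) (kl : ℕ → ℕ → Finset ℕ) (lam κ c m η : ℝ) (hlam : 0 ≤ lam) (hη : η ≤ 1) (hη0 : 0 ≤ η) (hc : lam * c ≤ η)
    (hκ0 : 0 ≤ κ) (T M : ℕ) (hkl : ∀ p u, 0 < p → kl p u ⊆ range p)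
    (hκ : ∀ p u, ((kl p u).card : ℝ) ≤ κ) (hκp : ∀ p, T < p → (1 + η) * κ ≤ p) (A : (ℕ → ℕ) → Finset ℕ)
    (hA : ∀ b, ∀ p, p.Prime → T < p → ∀ r, (((A b).filter (fun u => r ∈ kl p u)).card : ℝ) ≤ c)
    (hAd : ∀ b b' : ℕ → ℕ, (∀ p ≤ T, p.Prime → b p = b' p) → A b = A b')
    (hm : ∀ b, m ≤ (A b).card) :
    P.real {ω | ((surv kl (fun i => a i ω) ((Ioc T M).filter Nat.Prime) (A (fun i => a i ω))).card : ℝ) ≤
        (A (fun i => a i ω)).card * (∏ p ∈ (Ioc T M).filter Nat.Prime, (1 - (1 + η) * κ / (p : ℝ))) / 2} ≤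
      Real.exp (-(lam * (m * (∏ p ∈ (Ioc T M).filter Nat.Prime, (1 - (1 + η) * κ / (p : ℝ))) / 2))) := by
  have := prob h
  set L := (Ioc T M).filter Nat.Prime with hL
  have hpp : ∀ p ∈ L, p.Prime ∧ T < p := fun p hp => by
    rw [hL, mem_filter, mem_Ioc] at hp
    exact ⟨hp.2, hp.1.1⟩
  have hW0 : 0 ≤ ∏ p ∈ L, (1 - (1 + η) * κ / (p : ℝ)) := by
    refine prod_nonneg fun p hp => ?_
    have h1 : (0 : ℝ) < p := by exact_mod_cast (hpp p hp).1.pos
    have h2 : (1 + η) * κ / (p : ℝ) ≤ 1 := by rw [div_le_one h1]; exact hκp p (hpp p hp).2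
    linarith
  refine cond h ((range (T + 1)).filter Nat.Prime) L ?_
    (fun b => ((surv kl b L (A b)).card : ℝ) ≤ (A b).card * (∏ p ∈ L, (1 - (1 + η) * κ / (p : ℝ))) / 2) ?_ _
      (Real.exp_pos _).le ?_
  · rw [disjoint_left]
    intro p hp hp'
    rw [mem_filter, mem_range] at hp
    rw [hL, mem_filter, mem_Ioc] at hp'
    omega
  · intro b b' hbb
    have e1 : A b = A b' := hAd b b' fun p hp hpp => hbb p (by
      rw [mem_union, mem_filter, mem_range]
      exact Or.inl ⟨by omega, hpp⟩)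
    have e2 : surv kl b L (A b) = surv kl b' L (A b') := by
      rw [e1]
      exact surv_congr _ _ _ _ _ fun p hp => hbb p (mem_union_right _ hp)
    rw [e2, e1]
  · intro α
    have e1 : ∀ ω, A (fun i => if i ∈ (range (T + 1)).filter Nat.Prime then α i else a i ω) = A α := by
      intro ω
      refine hAd _ _ fun p hp hpp => ?_
      have h9 : p ∈ (range (T + 1)).filter Nat.Prime := mem_filter.2 ⟨mem_range.2 (by omega), hpp⟩
      simp only [h9, if_true]
    have e2 : ∀ ω, surv kl (fun i => if i ∈ (range (T + 1)).filter Nat.Prime then α i else a i ω) L (A α) =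
        surv kl (fun i => a i ω) L (A α) := by
      intro ω
      refine surv_congr _ _ _ _ _ fun p hp => ?_
      rw [hL, mem_filter, mem_Ioc] at hp
      have h9 : p ∉ (range (T + 1)).filter Nat.Prime := by
        rw [mem_filter, mem_range]
        omega
      simp only [h9, if_false]
    have hmain := tail h kl lam κ c η hlam hη hη0 hc hκ0 L (fun p hp => (hpp p hp).1)
      (fun p hp u => hkl p u (hpp p hp).1.pos) (fun p _ u => hκ p u) (fun p hp => hκp p (hpp p hp).2) (A α)
      (fun p hp r => hA α p (hpp p hp).1 (hpp p hp).2 r)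
    have e5 : {ω | ((surv kl (fun i => if i ∈ (range (T + 1)).filter Nat.Prime then α i else a i ω) L
        (A (fun i => if i ∈ (range (T + 1)).filter Nat.Prime then α i else a i ω))).card : ℝ) ≤
        (A (fun i => if i ∈ (range (T + 1)).filter Nat.Prime then α i else a i ω)).card *
          (∏ p ∈ L, (1 - (1 + η) * κ / (p : ℝ))) / 2} =
        {ω | ((surv kl (fun i => a i ω) L (A α)).card : ℝ) ≤ (A α).card * (∏ p ∈ L, (1 - (1 + η) * κ / (p : ℝ))) / 2} := by
      ext ω
      simp only [Set.mem_ofPred_eq]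
      rw [e1, e2]
    rw [e5]
    refine hmain.trans (Real.exp_le_exp.2 ?_)
    have := hm α
    gcongr

end Pool.Agent.H559.GU
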