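import Pool.Agent.H559.US.Base
import Pool.Agent.H559.GU.Lap2
import Pool.Agent.H559.HY.BH

set_option autoImplicit false

/-! # The deterministic part -/

open Finset MeasureTheory ProbabilityTheory Filter Topology Polynomial
open Pool.Agent.T2H32.BF (Model prob cond V V_pos V_anti V_ratio)
open Pool.Agent.H559.HY (surv Arr evl RS zero_count evl_sub_const res_le evl_mod arr evl_arr growth)
open Pool.Agent.H559.US (val NC kv val_dvd evl_dvd_mod rt_le pow_fac)
open Pool.Agent.H559.BS (TT TT_le log_pow_le)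

namespace Pool.Agent.H559.GU

section
variable {k D : ℕ}

theorem kill (C : Arr k D) (p : ℕ) (hp : p.Prime) (hC : NC C p) (X N r : ℕ) (A : Finset ℕ) (hA : A ⊆ Ioc X (X + N)) :
    ((A.filter (fun u => r ∈ kv C p u)).card : ℝ) ≤ 2 * (k * D) * (N / p + 1) := by
  classical
  set S : Finset ℕ := (univ : Finset (Fin k)).biUnion (fun i =>
    ((range p).filter (fun s => (p : ℤ) ∣ evl (C i) s - r)) ∪
      ((range p).filter (fun s => (p : ℤ) ∣ evl (C i) s - (-(r : ℤ))))) with hS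
  have h1 : A.filter (fun u => r ∈ kv C p u) ⊆ (Ioc X (X + N)).filter (fun m => m % p ∈ S) := by
    intro u hu
    rw [mem_filter] at hu
    rw [mem_filter]
    refine ⟨hA hu.1, ?_⟩
    have h2 := hu.2
    unfold kv at h2
    rw [mem_image] at h2
    obtain ⟨i, _, hi⟩ := h2
    have hm : u % p ∈ range p := mem_range.2 (Nat.mod_lt _ hp.pos)
    rw [hS, mem_biUnion]
    refine ⟨i, mem_univ _, ?_⟩
    rw [mem_union]
    rcases val_dvd C i u p r hi with h3 | h3
    · exact Or.inl (mem_filter.2 ⟨hm, (evl_dvd_mod (C i) p u r).2 h3⟩)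
    · refine Or.inr (mem_filter.2 ⟨hm, (evl_dvd_mod (C i) p u (-(r : ℤ))).2 ?_⟩)
      rw [sub_neg_eq_add]
      exact h3
  have h2 : S.card ≤ 2 * (k * D) := by
    refine card_biUnion_le.trans ?_
    have h3 : ∀ i ∈ (univ : Finset (Fin k)), (((range p).filter (fun s => (p : ℤ) ∣ evl (C i) s - r)) ∪
      ((range p).filter (fun s => (p : ℤ) ∣ evl (C i) s - (-(r : ℤ))))).card ≤ 2 * D := by
      intro i _
      have h4 := rt_le (C i) p hp (hC i) r
      have h5 := rt_le (C i) p hp (hC i) (-(r : ℤ))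
      refine (card_union_le _ _).trans ?_
      omega
    refine (sum_le_sum h3).trans ?_
    rw [sum_const, card_univ, Fintype.card_fin, smul_eq_mul]
    nlinarith
  have h3 : ((A.filter (fun u => r ∈ kv C p u)).card : ℝ) ≤
      (((Ioc X (X + N)).filter (fun m => m % p ∈ S)).card : ℝ) := by exact_mod_cast card_le_card h1
  refine h3.trans ((res_le p hp.pos S X N).trans ?_)
  have h4 : (S.card : ℝ) ≤ 2 * (k * D) := by exact_mod_cast h2
  gcongr

end

theorem V_le_one (T : ℕ) : V T ≤ 1 := by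
  have h3 : V T ≤ V 0 := V_anti (Nat.zero_le T)
  have h4 : V 0 = 1 := by
    unfold V
    have : (range (0 + 1)).filter Nat.Prime = ∅ := by
      rw [filter_eq_empty_iff]
      intro p hp
      rw [mem_range] at hp
      have : p = 0 := by omega
      rw [this]
      exact Nat.not_prime_zero
    rw [this, prod_empty]
  linarith

theorem prod_low1 (κ T M : ℕ) (h : 2 * κ ≤ T) (hTM : T ≤ M) :
    (V M / V T) ^ (2 * κ) ≤ ∏ p ∈ (Ioc T M).filter Nat.Prime, (1 - (κ : ℝ) / p) := by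
  rw [V_ratio T M hTM, ← prod_pow]
  refine prod_le_prod (fun p hp => ?_) fun p hp => ?_
  · rw [mem_filter] at hp
    have hp0 : (0 : ℝ) < p := by exact_mod_cast hp.2.pos
    have hp2 : (2 : ℝ) ≤ p := by exact_mod_cast hp.2.two_le
    have h5 : 1 / (p : ℝ) ≤ 1 := by rw [div_le_one hp0]; linarith
    exact pow_nonneg (by linarith) _
  · rw [mem_filter, mem_Ioc] at hp
    exact pow_fac κ p hp.2.two_le (by omega)

theorem exp_sq (x : ℝ) (h0 : 0 ≤ x) : Real.exp (-x) ≤ 1 - x + x ^ 2 := by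
  rcases le_or_gt x 1 with h1 | h1
  · have h := Real.exp_bound_div_one_sub_of_interval h0
    have h2 : Real.exp (-x) ≤ 1 / (1 + x) := by
      rw [Real.exp_neg, ← one_div]
      have := Real.add_one_le_exp x
      exact one_div_le_one_div_of_le (by linarith) (by linarith)
    refine h2.trans ?_
    rw [div_le_iff₀ (by linarith)]
    nlinarith [pow_nonneg h0 3]
  · have h2 : Real.exp (-x) ≤ 1 := Real.exp_le_one_iff.2 (by linarith)
    nlinarith

theorem fac_r (η : ℝ) (hη : 0 < η) (hη1 : η ≤ 1) (p : ℕ) (hp : 2 ≤ p) (hpη : 9 / η ≤ p) :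
    (1 - 1 / (p : ℝ)) ^ (1 + 2 * η) ≤ 1 - (1 + η) / p := by
  have hp0 : (0 : ℝ) < p := by exact_mod_cast (show 0 < p by omega)
  have hp2 : (2 : ℝ) ≤ p := by exact_mod_cast hp
  have h3 : 1 - 1 / (p : ℝ) ≤ Real.exp (-(1 / (p : ℝ))) := by
    have := Real.add_one_le_exp (-(1 / (p : ℝ)))
    linarith
  have h4 : 0 ≤ 1 - 1 / (p : ℝ) := by
    have : 1 / (p : ℝ) ≤ 1 := by rw [div_le_one hp0]; linarith
    linarith
  calc (1 - 1 / (p : ℝ)) ^ (1 + 2 * η) ≤ Real.exp (-(1 / (p : ℝ))) ^ (1 + 2 * η) :=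
        Real.rpow_le_rpow h4 h3 (by linarith)
    _ = Real.exp (-((1 + 2 * η) / p)) := by
        rw [← Real.exp_mul]
        congr 1
        ring
    _ ≤ 1 - (1 + 2 * η) / p + ((1 + 2 * η) / p) ^ 2 := exp_sq _ (by positivity)
    _ ≤ 1 - (1 + η) / p := by
        have h5 : ((1 + 2 * η) / (p : ℝ)) ^ 2 ≤ η / p := by
          rw [div_pow, div_le_div_iff₀ (by positivity) hp0]
          rw [div_le_iff₀ hη] at hpη
          have h6 : (1 + 2 * η) ^ 2 ≤ 9 := by nlinarith
          calc (1 + 2 * η) ^ 2 * (p : ℝ) ≤ 9 * p := by gcongr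
            _ ≤ (p * η) * p := by gcongr
            _ = η * (p : ℝ) ^ 2 := by ring
        have h6 : (1 + 2 * η) / (p : ℝ) = (1 + η) / p + η / p := by
          rw [← add_div]
          congr 1
          ring
        linarith

theorem prod_low_r (η : ℝ) (hη : 0 < η) (hη1 : η ≤ 1) (T M : ℕ) (h : 9 / η ≤ T) (hTM : T ≤ M) :
    (V M / V T) ^ (1 + 2 * η) ≤ ∏ p ∈ (Ioc T M).filter Nat.Prime, (1 - (1 + η) / p) := by
  have hfac : ∀ p ∈ (Ioc T M).filter Nat.Prime, 0 ≤ 1 - 1 / (p : ℝ) := by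
    intro p hp
    rw [mem_filter] at hp
    have hp0 : (0 : ℝ) < p := by exact_mod_cast hp.2.pos
    have hp2 : (2 : ℝ) ≤ p := by exact_mod_cast hp.2.two_le
    have h5 : 1 / (p : ℝ) ≤ 1 := by rw [div_le_one hp0]; linarith
    linarith
  rw [V_ratio T M hTM, ← Real.finsetProd_rpow _ _ hfac]
  refine prod_le_prod (fun p hp => Real.rpow_nonneg (hfac p hp) _) fun p hp => ?_
  rw [mem_filter, mem_Ioc] at hp
  refine fac_r η hη hη1 p hp.2.two_le (h.trans ?_)
  exact_mod_cast hp.1.1.le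

/-- the values of a polynomial -/
def G (f : ℤ[X]) (m : ℕ) : ℕ := (f.eval (m : ℤ)).natAbs

theorem surv_place (f : ℤ[X]) (z W : ℕ → ℕ) (hz : Monotone z) (hW : Monotone W) (b : ℕ → ℕ) (w1 w2 N lo hi m : ℕ)
    (h3 : 3 ≤ lo) (h1 : w1 ≤ W lo) (h2 : W hi ≤ w2) (hN : z hi ≤ N) (hlo : lo ≤ G f m) (hhi : G f m ≤ hi)
    (hs : ∀ p ≤ w2, p.Prime → ¬ p ∣ G f m) (hr : ∀ p, p.Prime → w1 < p → p ≤ N → G f m % p ≠ b p) :
    G f m ∈ RS z W b := by
  refine ⟨h3.trans hlo, fun p hp hpp => ?_⟩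
  split_ifs with hpW
  · intro h
    exact hs p (hpW.trans ((hW hhi).trans h2)) hpp (Nat.dvd_of_mod_eq_zero h)
  · have := hW hlo
    exact hr p hpp (by omega) (hp.trans ((hz hhi).trans hN))

theorem G_ev (f : ℤ[X]) (hd : 0 < f.natDegree) (hl : 0 < f.leadingCoeff) :
    ∀ᶠ n : ℕ in atTop, ∀ m : ℕ, n < m → m ≤ n + n → TT (1 / 4) n ≤ G f m ∧ G f m ≤ n ^ (f.natDegree + 2) := by
  obtain ⟨m0, hm0⟩ := eventually_atTop.1 (growth f hd hl)
  have h2 : ∀ᶠ x : ℕ in atTop, 2 * TT (1 / 4) x ≤ x := by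
    filter_upwards [eventually_ge_atTop 1, log_pow_le 0 (3 / 4) 2 (by norm_num)] with x hx h2
    have hx0 : (0 : ℝ) < x := by exact_mod_cast hx
    have h4 : (2 : ℝ) * (x : ℝ) ^ (1 / 4 : ℝ) ≤ x := by
      rw [pow_zero, mul_one] at h2
      calc (2 : ℝ) * (x : ℝ) ^ (1 / 4 : ℝ) ≤ (x : ℝ) ^ (3 / 4 : ℝ) * (x : ℝ) ^ (1 / 4 : ℝ) := by gcongr
        _ = x := by
            rw [← Real.rpow_add hx0]
            norm_num
    have h5 := TT_le (1 / 4) x
    have h6 : (2 : ℝ) * (TT (1 / 4) x : ℝ) ≤ x := by linarith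
    exact_mod_cast h6
  set d := f.natDegree with hdd
  filter_upwards [h2, eventually_ge_atTop m0, eventually_ge_atTop (2 * f.leadingCoeff.natAbs), eventually_ge_atTop (2 ^ d + 1)] with
    n h3 h4 h5 h6 m hm1 hm2
  obtain ⟨h8, h9⟩ := hm0 m (by omega)
  have hm1r : (1 : ℝ) ≤ m := by exact_mod_cast (show 1 ≤ m by omega)
  have hpos : (0 : ℝ) < ((f.eval (m : ℤ) : ℤ) : ℝ) := lt_of_lt_of_le (by positivity) h8
  have hpos' : 0 < f.eval (m : ℤ) := by exact_mod_cast hpos
  have hG : ((G f m : ℕ) : ℝ) = ((f.eval (m : ℤ) : ℤ) : ℝ) := by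
    unfold G
    rw [Nat.cast_natAbs, abs_of_pos hpos']
  constructor
  · have h10 : (m : ℝ) / 2 ≤ G f m := by
      rw [hG]
      refine le_trans ?_ h8
      have : (m : ℝ) ≤ (m : ℝ) ^ d := le_self_pow₀ hm1r (by omega)
      linarith
    have h11 : (2 * TT (1 / 4) n : ℕ) ≤ 2 * G f m := by
      have h12 : ((n : ℕ) : ℝ) ≤ 2 * G f m := by
        have : (n : ℝ) ≤ m := by exact_mod_cast hm1.le
        linarith
      have h13 : n ≤ 2 * G f m := by exact_mod_cast h12
      omega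
    omega
  · have hcast : (f.leadingCoeff : ℝ) = (f.leadingCoeff.natAbs : ℝ) := by
      rw [Nat.cast_natAbs, abs_of_pos hl]
    have h10 : ((G f m : ℕ) : ℝ) ≤ ((n ^ (d + 2) : ℕ) : ℝ) := by
      rw [hG]
      refine h9.trans ?_
      rw [hcast]
      have h12 : 2 * f.leadingCoeff.natAbs * m ^ d ≤ n ^ (d + 2) := by
        calc 2 * f.leadingCoeff.natAbs * m ^ d ≤ n * (n + n) ^ d :=
              Nat.mul_le_mul h5 (Nat.pow_le_pow_left hm2 d)
          _ = n * (2 ^ d * n ^ d) := by rw [← two_mul, mul_pow]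
          _ ≤ n * (n * n ^ d) := by
              refine Nat.mul_le_mul_left _ (Nat.mul_le_mul_right _ ?_)
              omega
          _ = n ^ (d + 2) := by ring
      exact_mod_cast h12
    exact_mod_cast h10

end Pool.Agent.H559.GU
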