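import Pool.Agent.H559.GU.CutL
import Pool.Agent.H559.GU.Det
import Pool.Graph.R_pool_sql_team_seeded_1acbe0a2.Y677.KU.PolyLower

set_option autoImplicit false

/-! # Asymptotic inequalities -/

open Finset Filter Topology
open Pool.Agent.T2H32.BF (V V_pos V_anti V_ratio recip_le mertens)
open Pool.Agent.H559.BS (Limit TT TT_le TT_ge TT_top log_TT V_TT log_pow_le log_top g g_pos)
open Pool.Agent.H559.HY (Cut WW log_WW V_WW WW_top cut_WW log_TT_lim log_pow_lim zpow_ev)

namespace Pool.Agent.H559.GU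

variable {W : ℕ → ℕ}

theorem id_lim : Tendsto (fun x : ℕ => Real.log (x : ℕ) / Real.log x) atTop (𝓝 1) := by
  refine tendsto_const_nhds.congr' ?_
  filter_upwards [log_top.eventually_ge_atTop 1] with x hx
  field_simp

theorem small_ev (hW : CutL W) (A : ℕ) (hA : 1 ≤ A) (t ζ : ℝ) (ht : 0 < t) (hζ : ζ < 1) (hζt : 1 < ζ * t) :
    ∀ᶠ n : ℕ in atTop, ∀ p ≤ W (n ^ A), p.Prime → p ∈ Pool.Agent.Y882.PZ (WW t n) ζ := by
  have hA0 : (0 : ℝ) < A := by exact_mod_cast hA
  have h1 := ((log_lim hW).comp (u_top _ A hA0 (log_pow_lim A))).mul (ll_lim _ A hA0 (log_pow_lim A))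
  rw [mul_one] at h1
  have h2 := (log_WW t ht (fun x => x) 1 one_pos id_lim).const_mul ζ
  obtain ⟨s, hs1, hs2⟩ := exists_between hζt
  filter_upwards [h1.eventually_lt_const hs1, h2.eventually_const_lt hs2, ll_top.eventually_ge_atTop 1,
    (ll_top.comp (u_top _ A hA0 (log_pow_lim A))).eventually_ge_atTop 1,
    (WW_top t ht (fun x => x) 1 one_pos id_lim).eventually_ge_atTop 2] with n a1 a2 a3 a4 a5 p hp hpp
  simp only [Function.comp_apply] at a1 a4
  have hll : 0 < Real.log (Real.log n) := by linarith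
  have e1 : Real.log (W (n ^ A)) / Real.log (Real.log ((n ^ A : ℕ) : ℝ)) *
      (Real.log (Real.log ((n ^ A : ℕ) : ℝ)) / Real.log (Real.log n)) = Real.log (W (n ^ A)) / Real.log (Real.log n) := by
    have : Real.log (Real.log ((n ^ A : ℕ) : ℝ)) ≠ 0 := by linarith
    field_simp
  rw [e1, div_lt_iff₀ hll] at a1
  rw [← mul_div_assoc, lt_div_iff₀ hll] at a2
  have hlY : 0 < Real.log (WW t n) := Real.log_pos (by exact_mod_cast a5)
  have hp0 : (0 : ℝ) < p := by exact_mod_cast hpp.pos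
  have hpl : Real.log p ≤ Real.log (W (n ^ A)) := Real.log_le_log hp0 (by exact_mod_cast hp)
  have h3 : Real.log p < ζ * Real.log (WW t n) := by linarith
  have h4 : Real.log p < Real.log (WW t n) := h3.trans (by nlinarith)
  have hY0 : (0 : ℝ) < WW t n := by exact_mod_cast (show 0 < WW t n by omega)
  have h5 : (p : ℝ) < WW t n := (Real.log_lt_log_iff hp0 hY0).1 h4
  unfold Pool.Agent.Y882.PZ
  rw [mem_filter, mem_Icc]
  refine ⟨⟨hpp.pos, ?_⟩, hpp, ?_⟩
  · exact_mod_cast h5.le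
  · unfold Pool.Agent.W23.DC.tt
    rw [div_lt_iff₀ hlY]
    exact h3

theorem y_le (t : ℝ) (ht : 1 < t) : ∀ᶠ n : ℕ in atTop, WW t n ≤ n := by
  filter_upwards [(cut_WW t ht).small 1 1 le_rfl one_pos] with n h
  rw [pow_one] at h
  refine h.trans ?_
  have := TT_le 1 n
  rw [Real.rpow_one] at this
  exact_mod_cast this

theorem log_y (t : ℝ) (ht : 0 < t) : ∀ᶠ n : ℕ in atTop, 0 < Real.log (WW t n) ∧
    Real.log (WW t n) ≤ 2 * t * Real.log (Real.log n) := by
  have h2 := log_WW t ht (fun x => x) 1 one_pos id_lim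
  filter_upwards [h2.eventually_lt_const (show t < 2 * t by linarith), ll_top.eventually_ge_atTop 1,
    (WW_top t ht (fun x => x) 1 one_pos id_lim).eventually_ge_atTop 2] with n a1 a2 a3
  rw [div_lt_iff₀ (by linarith)] at a1
  exact ⟨Real.log_pos (by exact_mod_cast a3), a1.le⟩

theorem w1_ev (hW : CutL W) (t : ℝ) (ht : 0 < t) (K : ℝ) (hK : 0 ≤ K) :
    ∀ᶠ n : ℕ in atTop, K * (Real.log n * Real.log (WW t n)) ≤ W (TT (1 / 4) n) := by
  have h1 := (TT_top (1 / 4) (by norm_num)).eventually (low1 hW (K * (8 * (4 * t))))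
  have h2 := log_TT_lim (1 / 4) (by norm_num)
  have h3 := ll_lim (TT (1 / 4)) (1 / 4) (by norm_num) h2
  filter_upwards [h1, h2.eventually_const_lt (show (1 / 8 : ℝ) < 1 / 4 by norm_num),
    h3.eventually_const_lt (show (1 / 2 : ℝ) < 1 by norm_num), log_y t ht, log_top.eventually_ge_atTop 1,
    ll_top.eventually_ge_atTop 1] with n a1 a2 a3 a4 a5 a6
  refine le_trans ?_ a1
  rw [lt_div_iff₀ (by linarith)] at a2 a3
  have hll : 0 < Real.log (Real.log n) := by linarith
  calc K * (Real.log n * Real.log (WW t n)) ≤ K * (Real.log n * (2 * t * Real.log (Real.log n))) := by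
        have := a4.2
        gcongr
    _ = K * (8 * (4 * t)) * ((1 / 8 * Real.log n) * (1 / 2 * Real.log (Real.log n))) := by ring
    _ ≤ K * (8 * (4 * t)) * (Real.log (TT (1 / 4) n) * Real.log (Real.log (TT (1 / 4) n))) := by
        gcongr

/-- the product over the first stage -/
theorem V1_ev (hW : CutL W) (t : ℝ) (ht : 1 ≤ t) :
    ∀ᶠ n : ℕ in atTop, 1 / (2 * t) ≤ V (WW t n) / V (W (TT (1 / 4) n)) := by
  have ht0 : 0 < t := by linarith
  have h1 := V_WW t ht0 (fun x => x) 1 one_pos id_lim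
  have h2 := V_lim hW (TT (1 / 4)) (1 / 4) (by norm_num) (log_TT_lim (1 / 4) (by norm_num))
  have hg := g_pos
  have h3 := h1.div h2 hg.ne'
  have e : g / t / g = 1 / t := by field_simp
  rw [e] at h3
  have h4 : 1 / (2 * t) < 1 / t := by
    apply one_div_lt_one_div_of_lt ht0
    linarith
  filter_upwards [h3.eventually_const_lt h4, ll_top.eventually_ge_atTop 1] with n a1 a2
  simp only [Pi.div_apply] at a1
  refine a1.le.trans (le_of_eq ?_)
  have := V_pos (W (TT (1 / 4) n))
  field_simp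

/-- the product over the second stage -/
theorem V2_ev (z : ℕ → ℕ) (hz : Limit z) (A : ℕ) (hA : 1 ≤ A) :
    ∀ᶠ n : ℕ in atTop, 1 / (2 * A * Real.log n) ≤ V (z (n ^ A)) := by
  have hA0 : (0 : ℝ) < A := by exact_mod_cast hA
  have hpow : Tendsto (fun x : ℕ => x ^ A) atTop atTop := tendsto_pow_atTop (by omega)
  have h1 := hz.2.comp hpow
  filter_upwards [h1.eventually_const_lt (show (1 / 2 : ℝ) < 1 by norm_num), log_top.eventually_ge_atTop 1] with n a1 a2
  simp only [Function.comp_apply, Nat.cast_pow, Real.log_pow] at a1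
  rw [div_le_iff₀ (by positivity)]
  nlinarith

theorem rp (a : ℝ) (ha : 0 < a) : Tendsto (fun n : ℕ => Real.log n ^ a) atTop atTop := (tendsto_rpow_atTop ha).comp log_top

/-- the second stage -/
theorem st2_ev (t η : ℝ) (ht : 1 < t) (hη : 0 < η) (hηt : 2 + 3 * η < t) (A : ℕ) (hA : 1 ≤ A) (K : ℝ) (hK : 0 < K) :
    ∀ᶠ n : ℕ in atTop, 2 * Real.log n ≤ K * ((WW t n : ℝ) / Real.log (WW t n)) * (1 / (2 * A * Real.log n)) ^ (1 + 2 * η) := by
  have ht0 : 0 < t := by linarith
  have hA0 : (0 : ℝ) < A := by exact_mod_cast hA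
  have hll : ∀ᶠ n : ℕ in atTop, Real.log (WW t n) ≤ Real.log n ^ η := by
    have h1 : (fun x : ℝ => Real.log x) =o[atTop] fun x => x ^ η := isLittleO_log_rpow_atTop hη
    have h2 := (h1.bound (show (0 : ℝ) < 1 / (2 * t) by positivity))
    filter_upwards [log_top.eventually h2, log_y t ht0, ll_top.eventually_ge_atTop 1, log_top.eventually_ge_atTop 1] with n a1 a2 a3 a4
    have a1' : ‖Real.log (Real.log n)‖ ≤ 1 / (2 * t) * ‖Real.log n ^ η‖ := a1
    rw [Real.norm_eq_abs, abs_of_nonneg (by linarith), Real.norm_eq_abs, abs_of_nonneg (by positivity)] at a1'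
    refine a2.2.trans ?_
    calc 2 * t * Real.log (Real.log n) ≤ 2 * t * (1 / (2 * t) * Real.log n ^ η) := by gcongr
      _ = Real.log n ^ η := by field_simp
  set c : ℝ := K / (2 * (2 * A) ^ (1 + 2 * η)) with hc
  have hc0 : 0 < c := by positivity
  filter_upwards [hll, log_y t ht0, log_top.eventually_ge_atTop 2, rp (t - 2 - 3 * η) (by linarith) |>.eventually_ge_atTop (2 / c)]
    with n a1 a2 a3 a4
  set L := Real.log n with hL
  have hL0 : 0 < L := by linarith
  have hy : L ^ t / 2 ≤ (WW t n : ℝ) := by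
    have h1 := Nat.lt_floor_add_one (L ^ t)
    have h2 : 2 ≤ L ^ t := by
      calc (2 : ℝ) ≤ L := a3
        _ = L ^ (1 : ℝ) := (Real.rpow_one L).symm
        _ ≤ L ^ t := Real.rpow_le_rpow_of_exponent_le (by linarith) ht.le
    unfold WW
    rw [← hL]
    linarith
  have e1 : (1 / (2 * A * L)) ^ (1 + 2 * η) = 1 / ((2 * A) ^ (1 + 2 * η) * L ^ (1 + 2 * η)) := by
    rw [Real.div_rpow zero_le_one (by positivity), Real.one_rpow, Real.mul_rpow (by positivity) hL0.le]
  rw [e1]
  have h3 : L ^ t / 2 / L ^ η ≤ (WW t n : ℝ) / Real.log (WW t n) := by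
    have := a2.1
    gcongr
  calc 2 * L = c * ((2 / c) * L) := by field_simp
    _ ≤ c * (L ^ (t - 2 - 3 * η) * L) := by gcongr
    _ = c * (L ^ t / L ^ η / L ^ (1 + 2 * η)) := by
        rw [← Real.rpow_sub hL0, ← Real.rpow_sub hL0]
        congr 1
        nth_rw 2 [← Real.rpow_one L]
        rw [← Real.rpow_add hL0]
        congr 1
        ring
    _ = K * (L ^ t / 2 / L ^ η) * (1 / ((2 * A) ^ (1 + 2 * η) * L ^ (1 + 2 * η))) := by
        rw [hc]
        field_simp
    _ ≤ _ := by gcongr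

theorem w1_le (hW : CutL W) (t : ℝ) (ht : 1 < t) : ∀ᶠ n : ℕ in atTop, W (TT (1 / 4) n) ≤ WW t n := by
  filter_upwards [(TT_top (1 / 4) (by norm_num)).eventually (hW.up (t - 1) (by linarith)), log_TT (1 / 4) (by norm_num),
    log_top.eventually_ge_atTop 1] with n h1 h2 h3
  unfold WW
  refine Nat.le_floor (h1.trans ?_)
  rw [show 1 + (t - 1) = t by ring]
  refine Real.rpow_le_rpow (Real.log_natCast_nonneg _) ?_ (by linarith)
  have := h2.2
  linarith

end Pool.Agent.H559.GU
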