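import Pool.Agent.H559.GU.Up
import Pool.Agent.H559.GP.Fin

set_option autoImplicit false

/-! # Every window contains a place, almost surely -/

open Finset MeasureTheory ProbabilityTheory Filter Topology Polynomial
open Pool.Agent.T2H32.BF (Model prob cond V V_pos V_anti V_ratio)
open Pool.Agent.H559.HY (surv Arr evl RS arr evl_arr WW WW_top WW_mono surv_congr)
open Pool.Agent.H559.BS (Limit TT TT_le TT_top log_pow_le log_top bc)

namespace Pool.Agent.H559.GU

variable {Ω : Type*} [MeasurableSpace Ω] {P : Measure Ω} {a : ℕ → Ω → ℕ} {W : ℕ → ℕ}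

/-- no fixed prime divisor -/
def NF (f : ℤ[X]) : Prop := ∀ p : ℕ, p.Prime → ∃ m : ℕ, ¬ (p : ℤ) ∣ f.eval (m : ℤ)

theorem win_ae (h : Model P a) (z : ℕ → ℕ) (hz : Limit z) (hW : CutL W) (f : ℤ[X]) (hf : Pool.Agent.H559.PV.GP f) (hnf : NF f)
    (t : ℝ) (ht : 2 < t) :
    ∀ᵐ ω ∂P, ∀ᶠ n : ℕ in atTop, ∃ m : ℕ, n < m ∧ m ≤ n + WW t n ∧ G f m ∈ RS z W (fun p => a p ω) := by
  classical
  have := prob h
  have hd := hf.deg
  have hl := hf.lead
  set d := f.natDegree with hdd
  have hd0 : (0 : ℝ) < d := by exact_mod_cast hd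
  set A := d + 2 with hA
  have hA1 : 1 ≤ A := by omega
  have ht0 : 0 < t := by linarith
  set ζ : ℝ := (1 / t + 1 / 2) / 2 with hζ
  have h1t : 1 / t < 1 / 2 := by
    apply one_div_lt_one_div_of_lt (by norm_num) ht
  have h1t0 : 0 < 1 / t := by positivity
  have hζt : 1 < ζ * t := by
    have e : ζ * t = 1 / 2 + t / 4 := by
      rw [hζ]
      field_simp
      ring
    rw [e]
    linarith
  have hsys : Pool.Agent.W123.RU.Poly.Sys (fun _ : Fin 1 => f) :=
    { irr := fun _ => hf.irr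
      deg := fun _ => hf.deg
      lead := fun _ => hf.lead
      inj := fun i j _ => Subsingleton.elim _ _
      adm := fun p hp => by
        obtain ⟨m, hm⟩ := hnf p hp
        exact ⟨m, fun _ => hm⟩ }
  obtain ⟨c0, hc0, hlow⟩ := Pool.Agent.Y677.KU.lower1 f hsys ζ ζ (by linarith) (by linarith) le_rfl (by linarith)
  set η : ℝ := min 1 ((t - 2) / 4) with hη
  have hη0 : 0 < η := lt_min one_pos (by linarith)
  have hη1 : η ≤ 1 := min_le_left _ _
  have hηt : 2 + 3 * η < t := by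
    have : η ≤ (t - 2) / 4 := min_le_right _ _
    linarith
  set r1 : ℝ := (1 / (2 * t)) ^ 4 with hr1
  have hr10 : 0 < r1 := by positivity
  have hr11 : r1 ≤ 1 := by
    refine pow_le_one₀ (by positivity) ?_
    rw [div_le_one (by positivity)]
    linarith
  set y : ℕ → ℕ := fun n => WW t n with hy
  set w1 : ℕ → ℕ := fun n => W (TT (1 / 4) n) with hw1
  set w2 : ℕ → ℕ := fun n => W (n ^ A) with hw2
  set N : ℕ → ℕ := fun n => z (n ^ A) with hN
  have hyt : Tendsto y atTop atTop := WW_top t ht0 (fun x => x) 1 one_pos id_lim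
  have hw1t : Tendsto w1 atTop atTop := Pool.Agent.H559.GP.W_top W (cut hW) (1 / 4) (by norm_num)
  -- the sifted windows
  have hbase : ∀ᶠ n : ℕ in atTop, c0 * (y n) / Real.log (y n) ≤ ((A0 f (w2 n) n (y n)).card : ℝ) := by
    filter_upwards [hyt.eventually hlow, small_ev hW A hA1 t ζ ht0 (by linarith) hζt] with n h1 h2
    refine (h1 n).trans ?_
    have h3 : ((Ioc n (n + y n)).filter (fun m => (∀ p ∈ Pool.Agent.Y882.PZ (y n) ζ, ¬ p ∣ Pool.Agent.Y677.KU.G f m) ∧
        ((Pool.Agent.W23.DC.pr (y n) ζ ζ).filter (fun q => q ∣ Pool.Agent.Y677.KU.G f m)).card ≤ 1)) ⊆ A0 f (w2 n) n (y n) := by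
      intro m hm
      rw [mem_filter] at hm
      unfold A0
      rw [mem_filter]
      exact ⟨hm.1, fun p hp hpp => hm.2.1 p (h2 p hp hpp)⟩
    exact_mod_cast card_le_card h3
  -- the bad events
  set Bad : ℕ → Set Ω := fun n => {ω | ¬ ∃ m : ℕ, n < m ∧ m ≤ n + y n ∧ (∀ p ≤ w2 n, p.Prime → ¬ p ∣ G f m) ∧
      ∀ p, p.Prime → w1 n < p → p ≤ N n → G f m % p ≠ a p ω} with hBad
  have hw1y : ∀ᶠ n : ℕ in atTop, w1 n ≤ y n := w1_le hW t (by linarith)
  have hprob : ∀ᶠ n : ℕ in atTop, P.real (Bad n) ≤ 2 / (n : ℝ) ^ 2 := by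
    filter_upwards [hbase, hw1y, V1_ev hW t (by linarith), V2_ev z hz A hA1, w1_ev hW t ht0 (16 * d / (c0 * r1)) (by positivity),
      st2_ev t η (by linarith) hη0 hηt A hA1 (η * c0 * r1 / (16 * d)) (by positivity), hw1t.eventually_ge_atTop 4,
      hw1t.eventually_ge_atTop f.leadingCoeff.natAbs, hyt.eventually_ge_atTop ⌈9 / η⌉₊, log_y t ht0, eventually_ge_atTop 1,
      log_top.eventually_ge_atTop 1] with n g1 g2 g3 g4 g5 g6 g7 g8 g9 g10 g11 g12
    have hn0 : (0 : ℝ) < n := by exact_mod_cast g11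
    have hw0 : (0 : ℝ) < w1 n := by exact_mod_cast (show 0 < w1 n by omega)
    have hy0 : (0 : ℝ) < y n := by exact_mod_cast (show 0 < y n by omega)
    have hly := g10.1
    have hR1 : r1 ≤ ∏ p ∈ (Ioc (w1 n) (y n)).filter Nat.Prime, (1 - (1 + (1 : ℝ)) * (1 : ℝ) / (p : ℝ)) := by
      have h1 := prod_low1 2 (w1 n) (y n) (by omega) g2
      refine le_trans ?_ (h1.trans (le_of_eq ?_))
      · rw [hr1]
        exact pow_le_pow_left₀ (by positivity) g3 _
      · refine prod_congr rfl fun p _ => ?_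
        norm_num
    set R2 := ∏ p ∈ (Ioc (y n) (N n)).filter Nat.Prime, (1 - (1 + η) * (1 : ℝ) / (p : ℝ)) with hR2d
    have hR2 : (1 / (2 * A * Real.log n)) ^ (1 + 2 * η) ≤ R2 := by
      rcases le_or_gt (y n) (N n) with h1 | h1
      · have h2 := prod_low_r η hη0 hη1 (y n) (N n) (Nat.ceil_le.1 g9) h1
        refine le_trans ?_ (h2.trans (le_of_eq ?_))
        · refine Real.rpow_le_rpow (by positivity) ?_ (by linarith)
          refine g4.trans ?_
          rw [le_div_iff₀ (V_pos (y n))]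
          have h3 := V_le_one (y n)
          have h4 := V_pos (N n)
          nlinarith
        · refine prod_congr rfl fun p _ => ?_
          rw [mul_one]
      · have : (Ioc (y n) (N n)).filter Nat.Prime = ∅ := by
          rw [Ioc_eq_empty (by omega)]
          rfl
        rw [hR2d, this, prod_empty]
        refine Real.rpow_le_one (by positivity) ?_ (by linarith)
        rw [div_le_one (by positivity)]
        have : (1 : ℝ) ≤ A := by exact_mod_cast hA1
        nlinarith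
    have h1 := one h f hd hl η r1 (c0 * (y n) / Real.log (y n)) hη0 hη1 hr10.le hr11 n (y n) (w1 n) (w2 n) (N n)
      (by positivity) g8 g7 g2 g1 hR1 (2 * Real.log n) (2 * Real.log n) ?_ ?_
    · refine h1.trans ?_
      have h2 := Q_le n g11 (2 * Real.log n) le_rfl
      calc Real.exp (-(2 * Real.log n)) + Real.exp (-(2 * Real.log n)) ≤ 1 / (n : ℝ) ^ 2 + 1 / (n : ℝ) ^ 2 := add_le_add h2 h2
        _ = 2 / (n : ℝ) ^ 2 := by ring
    · have e : (w1 n : ℝ) / (4 * d * y n) * (c0 * (y n) / Real.log (y n) * r1 / 2) =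
          (w1 n : ℝ) * (c0 * r1) / (8 * d * Real.log (y n)) := by
        field_simp
        ring
      rw [← hdd, e, le_div_iff₀ (by positivity)]
      have g5' : 16 * d / (c0 * r1) * (Real.log n * Real.log (y n)) ≤ w1 n := g5
      have h3 : 16 * d / (c0 * r1) * (Real.log n * Real.log (y n)) * (c0 * r1) ≤ w1 n * (c0 * r1) := by gcongr
      have h4 : 16 * d / (c0 * r1) * (Real.log n * Real.log (y n)) * (c0 * r1) = 16 * d * (Real.log n * Real.log (y n)) := by
        field_simp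
      rw [h4] at h3
      linarith
    · refine g6.trans ?_
      rw [← hdd]
      calc η * c0 * r1 / (16 * d) * ((WW t n : ℝ) / Real.log (WW t n)) * (1 / (2 * A * Real.log n)) ^ (1 + 2 * η)
          ≤ η * c0 * r1 / (16 * d) * ((WW t n : ℝ) / Real.log (WW t n)) * R2 := by
            have hly' : 0 < Real.log (WW t n) := hly
            gcongr
        _ = η / (4 * d) * (c0 * (y n) / Real.log (y n) * r1 / 2 * R2 / 2) := by
            simp only [hy]
            field_simp
            ring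
  filter_upwards [bc Bad 2 zero_le_two hprob] with ω hω
  filter_upwards [hω, G_ev f hd hl, y_le t (by linarith), (TT_top (1 / 4) (by norm_num)).eventually_ge_atTop 3] with n h1 h2 h3 h4
  simp only [hBad, Set.mem_ofPred_eq, not_not] at h1
  obtain ⟨m, hm1, hm2, hm3, hm4⟩ := h1
  have h3' : y n ≤ n := h3
  obtain ⟨h5, h6⟩ := h2 m hm1 (hm2.trans (by omega))
  exact ⟨m, hm1, hm2, surv_place f z W hz.1 hW.mono (fun p => a p ω) (w1 n) (w2 n) (N n) (TT (1 / 4) n) (n ^ A) m h4 le_rfl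
    le_rfl le_rfl h5 h6 hm3 hm4⟩

/-- all polynomials and all exponents at once -/
theorem all_ae (h : Model P a) (z : ℕ → ℕ) (hz : Limit z) (hW : CutL W) :
    ∀ᵐ ω ∂P, ∀ f : ℤ[X], Pool.Agent.H559.PV.GP f → NF f → ∀ t : ℝ, 2 < t → ∀ᶠ n : ℕ in atTop,
      ∃ m : ℕ, n < m ∧ (m : ℝ) ≤ n + Real.log n ^ t ∧ G f m ∈ RS z W (fun p => a p ω) := by
  have h1 : ∀ᵐ ω ∂P, ∀ f : ℤ[X], ∀ q : ℚ, Pool.Agent.H559.PV.GP f → NF f → 2 < (q : ℝ) → ∀ᶠ n : ℕ in atTop,
      ∃ m : ℕ, n < m ∧ m ≤ n + WW q n ∧ G f m ∈ RS z W (fun p => a p ω) := by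
    have := Pool.Agent.H559.GP.countable_poly
    rw [ae_all_iff]
    intro f
    rw [ae_all_iff]
    intro q
    by_cases hf : Pool.Agent.H559.PV.GP f ∧ NF f ∧ 2 < (q : ℝ)
    · filter_upwards [win_ae h z hz hW f hf.1 hf.2.1 q hf.2.2] with ω hω _ _ _
      exact hω
    · exact Eventually.of_forall fun ω a1 a2 a3 => absurd ⟨a1, a2, a3⟩ hf
  filter_upwards [h1] with ω hω f hf hnf t ht
  obtain ⟨q, hq1, hq2⟩ := exists_rat_btwn ht
  filter_upwards [hω f q hf hnf hq1, log_top.eventually_ge_atTop 1] with n hn hl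
  obtain ⟨m, h2, h3, h4⟩ := hn
  refine ⟨m, h2, ?_, h4⟩
  have h5 : (WW q n : ℝ) ≤ Real.log n ^ (q : ℝ) := Nat.floor_le (Real.rpow_nonneg (by linarith) _)
  have h6 : Real.log n ^ (q : ℝ) ≤ Real.log n ^ t := Real.rpow_le_rpow_of_exponent_le hl hq2.le
  have h7 : (m : ℝ) ≤ n + WW q n := by exact_mod_cast h3
  linarith

end Pool.Agent.H559.GU
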