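import Pool.Agent.H559.GU.EvU

set_option autoImplicit false

/-! # Every window contains a place -/

open Finset MeasureTheory ProbabilityTheory Filter Topology Polynomial
open Pool.Agent.T2H32.BF (Model prob cond V V_pos V_anti V_ratio)
open Pool.Agent.H559.HY (surv Arr evl RS arr evl_arr WW WW_top WW_mono surv_congr)
open Pool.Agent.H559.US (NC kv kv_sub kv_card)
open Pool.Agent.H559.BS (Limit TT TT_le TT_top log_pow_le log_top bc)

namespace Pool.Agent.H559.GU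

variable {Ω : Type*} [MeasurableSpace Ω] {P : Measure Ω} {a : ℕ → Ω → ℕ} {W : ℕ → ℕ}

/-- the array of one polynomial -/
def ar (f : ℤ[X]) : Arr 1 f.natDegree := arr f.natDegree (fun _ : Fin 1 => f)

theorem val_ar (f : ℤ[X]) (i : Fin 1) (m : ℕ) : Pool.Agent.H559.US.val (ar f) i m = G f m := by
  unfold Pool.Agent.H559.US.val ar G
  rw [evl_arr _ _ (fun _ => le_rfl)]

theorem nc_ar (f : ℤ[X]) (hd : 0 < f.natDegree) (hl : 0 < f.leadingCoeff) (p : ℕ) (hp : f.leadingCoeff.natAbs < p) :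
    NC (ar f) p := by
  intro i
  refine ⟨⟨f.natDegree, Nat.lt_succ_self _⟩, fun h => ?_, fun h => ?_⟩
  · have := congrArg Fin.val h
    simp at this
    omega
  · have h1 : (p : ℤ) ∣ f.leadingCoeff := h
    have h2 : p ∣ f.leadingCoeff.natAbs := by
      have := Int.natAbs_dvd_natAbs.2 h1
      rwa [Int.natAbs_natCast] at this
    have h3 := Nat.le_of_dvd (Int.natAbs_pos.2 hl.ne') h2
    omega

/-- the sifted window -/
def A0 (f : ℤ[X]) (w n y : ℕ) : Finset ℕ := (Ioc n (n + y)).filter (fun m => ∀ p ≤ w, p.Prime → ¬ p ∣ G f m)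

theorem Q_le (n : ℕ) (hn : 1 ≤ n) (x : ℝ) (hx : 2 * Real.log n ≤ x) : Real.exp (-x) ≤ 1 / (n : ℝ) ^ 2 := by
  have hn0 : (0 : ℝ) < n := by exact_mod_cast hn
  calc Real.exp (-x) ≤ Real.exp (-(2 * Real.log n)) := Real.exp_le_exp.2 (by linarith)
    _ = 1 / (n : ℝ) ^ 2 := by
        rw [Real.exp_neg, show 2 * Real.log (n : ℝ) = Real.log ((n : ℝ) ^ 2) by rw [Real.log_pow]; push_cast; ring,
          Real.exp_log (by positivity), one_div]

open Classical in
/-- one window -/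
theorem one (h : Model P a) (f : ℤ[X]) (hd : 0 < f.natDegree) (hl : 0 < f.leadingCoeff) (η r1 B : ℝ) (hη : 0 < η)
    (hη1 : η ≤ 1) (hr1 : 0 ≤ r1) (hr1' : r1 ≤ 1) (n y w1 w2 N : ℕ) (hB : 0 ≤ B)
    (hlc : f.leadingCoeff.natAbs ≤ w1) (hw4 : 4 ≤ w1) (hw1y : w1 ≤ y)
    (hA : B ≤ (A0 f w2 n y).card)
    (hR1 : r1 ≤ ∏ p ∈ (Ioc w1 y).filter Nat.Prime, (1 - (1 + (1 : ℝ)) * (1 : ℝ) / (p : ℝ)))
    (e1 e2 : ℝ) (he1 : e1 ≤ (w1 : ℝ) / (4 * f.natDegree * y) * (B * r1 / 2))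
    (he2 : e2 ≤ η / (4 * f.natDegree) * (B * r1 / 2 * (∏ p ∈ (Ioc y N).filter Nat.Prime, (1 - (1 + η) * (1 : ℝ) / (p : ℝ))) / 2)) :
    P.real {ω | ¬ ∃ m : ℕ, n < m ∧ m ≤ n + y ∧ (∀ p ≤ w2, p.Prime → ¬ p ∣ G f m) ∧
      ∀ p, p.Prime → w1 < p → p ≤ N → G f m % p ≠ a p ω} ≤ Real.exp (-e1) + Real.exp (-e2) := by
  have := prob h
  set d := f.natDegree with hdd
  have hd0 : (0 : ℝ) < d := by exact_mod_cast hd
  have hy0 : (0 : ℝ) < y := by exact_mod_cast (show 0 < y by omega)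
  have hw0 : (0 : ℝ) < w1 := by exact_mod_cast (show 0 < w1 by omega)
  set L1 := (Ioc w1 y).filter Nat.Prime with hL1
  set L2 := (Ioc y N).filter Nat.Prime with hL2
  set R1 := ∏ p ∈ L1, (1 - (1 + (1 : ℝ)) * (1 : ℝ) / (p : ℝ)) with hR1d
  set R2 := ∏ p ∈ L2, (1 - (1 + η) * (1 : ℝ) / (p : ℝ)) with hR2d
  set A00 := A0 f w2 n y with hA00
  have hsub : A00 ⊆ Ioc n (n + y) := filter_subset _ _
  set m1 : ℝ := B * r1 / 2 with hm1
  have hm10 : 0 ≤ m1 := by positivity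
  have hm1B : m1 ≤ A00.card := by
    refine le_trans ?_ hA
    rw [hm1]
    nlinarith
  have hR20 : 0 ≤ R2 := by
    refine prod_nonneg fun p hp => ?_
    rw [hL2, mem_filter, mem_Ioc] at hp
    have hp0 : (4 : ℝ) < p := by exact_mod_cast (show 4 < p by omega)
    rw [sub_nonneg, div_le_one (by linarith)]
    linarith
  have hR10 : 0 ≤ R1 := hr1.trans hR1
  set S1 : (ℕ → ℕ) → Finset ℕ := fun b => surv (kv (ar f)) b L1 A00 with hS1
  set A1 : (ℕ → ℕ) → Finset ℕ := fun b => if m1 ≤ ((S1 b).card : ℝ) then S1 b else A00 with hA1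
  have hS1sub : ∀ b, S1 b ⊆ A00 := fun b => filter_subset _ _
  have hA1sub : ∀ b, A1 b ⊆ A00 := fun b => by
    simp only [hA1]
    split_ifs
    · exact hS1sub b
    · exact Subset.refl _
  have hNC : ∀ p, w1 < p → NC (ar f) p := fun p hp => nc_ar f hd hl p (by omega)
  have hkv1 : ∀ p u, ((kv (ar f) p u).card : ℝ) ≤ 1 := fun p u => by
    have := kv_card (ar f) p u
    simpa using this
  -- stage 1
  have hst1 := tail h (kv (ar f)) ((w1 : ℝ) / (4 * d * y)) 1 (4 * d * y / w1) 1 (by positivity) le_rfl zero_le_one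
    (le_of_eq (by field_simp)) zero_le_one L1 (fun p hp => by
      rw [hL1, mem_filter] at hp
      exact hp.2) (fun p hp u => by
      rw [hL1, mem_filter] at hp
      exact kv_sub (ar f) p u hp.2.pos) (fun p _ u => hkv1 p u) (fun p hp => by
      rw [hL1, mem_filter, mem_Ioc] at hp
      have : (2 : ℝ) ≤ p := by exact_mod_cast hp.2.two_le
      linarith) A00 (fun p hp r => by
      rw [hL1, mem_filter, mem_Ioc] at hp
      refine (kill (ar f) p hp.2 (hNC p hp.1.1) n y r A00 hsub).trans ?_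
      have hwp : (w1 : ℝ) ≤ p := by exact_mod_cast hp.1.1.le
      have h1 : (y : ℝ) / p ≤ y / w1 := by gcongr
      have h2 : 1 ≤ (y : ℝ) / w1 := by
        rw [one_le_div hw0]
        exact_mod_cast hw1y
      calc 2 * (((1 : ℕ) : ℝ) * (d : ℝ)) * ((y : ℝ) / p + 1) ≤ 2 * (((1 : ℕ) : ℝ) * (d : ℝ)) * ((y : ℝ) / w1 + y / w1) := by gcongr
        _ = 4 * d * y / w1 := by push_cast; ring)
  have hst1' : P.real {ω | ((S1 (fun i => a i ω)).card : ℝ) ≤ A00.card * R1 / 2} ≤ Real.exp (-e1) := by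
    refine hst1.trans (Real.exp_le_exp.2 ?_)
    rw [neg_le_neg_iff]
    refine he1.trans ?_
    have : B * r1 / 2 ≤ A00.card * R1 / 2 := by gcongr
    gcongr
  -- stage 2
  have hst2 := tailc h (kv (ar f)) (η / (4 * d)) 1 (4 * d) m1 η (by positivity) hη1 hη.le
    (le_of_eq (by field_simp)) zero_le_one y N (fun p u hp => kv_sub (ar f) p u hp) hkv1 (fun p hp => by
      have : (4 : ℝ) < p := by exact_mod_cast (show 4 < p by omega)
      linarith) A1 (fun b p hp hyp r => by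
      refine (kill (ar f) p hp (hNC p (by omega)) n y r (A1 b) ((hA1sub b).trans hsub)).trans ?_
      have hyp' : (y : ℝ) ≤ p := by exact_mod_cast hyp.le
      have hp0 : (0 : ℝ) < p := by exact_mod_cast hp.pos
      have h1 : (y : ℝ) / p ≤ 1 := by rw [div_le_one hp0]; exact hyp'
      calc 2 * (((1 : ℕ) : ℝ) * (d : ℝ)) * ((y : ℝ) / p + 1) ≤ 2 * (((1 : ℕ) : ℝ) * (d : ℝ)) * (1 + 1) := by gcongr
        _ = 4 * d := by push_cast; ring) (fun b b' hbb => by
      have e : S1 b = S1 b' := surv_congr _ _ _ _ _ fun p hp => by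
        rw [hL1, mem_filter, mem_Ioc] at hp
        exact hbb p hp.1.2 hp.2
      simp only [hA1]
      rw [e]) (fun b => by
      simp only [hA1]
      split_ifs with h1
      · exact h1
      · exact hm1B)
  have hst2' : P.real {ω | ((surv (kv (ar f)) (fun i => a i ω) L2 (A1 (fun i => a i ω))).card : ℝ) ≤
      (A1 (fun i => a i ω)).card * R2 / 2} ≤ Real.exp (-e2) := by
    refine hst2.trans (Real.exp_le_exp.2 ?_)
    rw [neg_le_neg_iff]
    exact he2
  refine le_trans ?_ (add_le_add hst1' hst2')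
  refine le_trans (measureReal_mono ?_) (measureReal_union_le _ _)
  intro ω hω
  by_contra hcon
  rw [Set.mem_union, not_or] at hcon
  obtain ⟨g1, g2⟩ := hcon
  apply hω
  simp only [Set.mem_ofPred_eq, not_le] at g1 g2
  have hS : m1 ≤ ((S1 (fun i => a i ω)).card : ℝ) := by
    refine le_trans ?_ g1.le
    rw [hm1]
    gcongr
  have hAS : A1 (fun i => a i ω) = S1 (fun i => a i ω) := if_pos hS
  have hpos : (0 : ℝ) < (surv (kv (ar f)) (fun i => a i ω) L2 (A1 (fun i => a i ω))).card :=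
    lt_of_le_of_lt (div_nonneg (mul_nonneg (Nat.cast_nonneg _) hR20) zero_le_two) g2
  have hne : 0 < (surv (kv (ar f)) (fun i => a i ω) L2 (A1 (fun i => a i ω))).card := by exact_mod_cast hpos
  obtain ⟨m, hm⟩ := card_pos.1 hne
  rw [hAS] at hm
  unfold surv at hm
  rw [mem_filter] at hm
  obtain ⟨hm1', hm2⟩ := hm
  simp only [hS1] at hm1'
  unfold surv at hm1'
  rw [mem_filter] at hm1'
  obtain ⟨hmA, hm3⟩ := hm1'
  rw [hA00] at hmA
  unfold A0 at hmA
  rw [mem_filter, mem_Ioc] at hmA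
  refine ⟨m, hmA.1.1, hmA.1.2, hmA.2, fun p hp hwp hpN hcon => ?_⟩
  have hmem : a p ω ∈ kv (ar f) p m := by
    unfold kv
    rw [mem_image]
    exact ⟨0, mem_univ _, by rw [val_ar]; exact hcon⟩
  rcases le_or_gt p y with hpy | hpy
  · exact hm3 p (by rw [hL1, mem_filter, mem_Ioc]; exact ⟨⟨hwp, hpy⟩, hp⟩) hmem
  · exact hm2 p (by rw [hL2, mem_filter, mem_Ioc]; exact ⟨⟨hpy, hpN⟩, hp⟩) hmem

end Pool.Agent.H559.GU
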